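import Pool.Agent.H12.QZ

/-!
# Towers `a ^ (b ^ (g + n d))` close to algebraic numbers, at every scale

Let `b > 0`, `b ≠ 1` be a real algebraic number and `d` a real algebraic irrational number. For all `D`, `N`, `B`
there is a `C` such that the following holds for every `H ≥ 3`, for all real `a > 0` with `1 / B ≤ |log a| ≤ B` and
all real `g` with `|g| ≤ B` (algebraic or not): among the numbers `a ^ (b ^ (g + n d))`, `0 ≤ n ≤ N`, let `S` be the
set of those `n` for which there is an algebraic number of degree at most `D` and height at most `H` at distance at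
most `exp (-C (log H) ^ 11)`. Then every difference `r ≥ 1` occurs at most twice in `S`, and `|S| ≤ 2 √N + 1`.

With `a = b = d = √2` and `g = 0` the numbers are `√2`, `w = √2 ^ z`, `√2 ^ (z ^ 2)`, `√2 ^ (z ^ 3)`, ..., where
`z = √2 ^ √2`; the first one is algebraic. Hence at every scale at least one of the numbers `w`, `√2 ^ (z ^ 2)`,
`√2 ^ (z ^ 3)` is far from the algebraic numbers.
-/

set_option autoImplicit false

namespace Pool.Agent.Results.MP_93d8d2_nt.TowersAtEveryScale

open Polynomial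

/-- `α` is an algebraic number of degree at most `D` and height at most `H`: a root of a nonzero
integer polynomial of degree at most `D` with coefficients of absolute value at most `H`. -/
def IsAlg (D H : ℕ) (α : ℂ) : Prop :=
  ∃ P : ℤ[X], P ≠ 0 ∧ P.natDegree ≤ D ∧ (∀ i, |P.coeff i| ≤ (H : ℤ)) ∧ aeval α P = 0

/-- some algebraic number of degree at most `D` and height at most `H`, real or not, is at distance at
most `exp (-C (log H) ^ 11)` from `x` -/
def Close (D : ℕ) (C : ℝ) (H : ℕ) (x : ℝ) : Prop :=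
  ∃ α : ℂ, IsAlg D H α ∧ ‖(x : ℂ) - α‖ ≤ Real.exp (-(C * Real.log H ^ 11))

open Classical in
/-- the `n ≤ N` for which `a ^ (b ^ (g + n d))` is close to an algebraic number -/
noncomputable def closeSet (D N : ℕ) (C : ℝ) (H : ℕ) (a b g d : ℝ) : Finset ℕ :=
  (Finset.range (N + 1)).filter fun n => Close D C H (a ^ (b ^ (g + n * d)))

/-- `z = √2 ^ √2` -/
noncomputable def z : ℝ := Real.sqrt 2 ^ Real.sqrt 2

/-- counting: a set of numbers `≤ N` in which every difference occurs at most twice -/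
theorem count (S : Finset ℕ) (N : ℕ) (hS : ∀ n ∈ S, n ≤ N)
    (h : ∀ r, 1 ≤ r → (S.filter fun n => n + r ∈ S).card ≤ 2) :
    (S.card : ℝ) ≤ 2 * Real.sqrt N + 1 := by
  classical
  set P := (S ×ˢ S).filter (fun q => q.1 < q.2) with hPdef
  have hP : P.card ≤ 2 * N := by
    have h1 := Finset.card_le_mul_card_image (f := fun q : ℕ × ℕ => q.2 - q.1) P 2 (by
      intro r hr
      obtain ⟨q, hq, rfl⟩ := Finset.mem_image.mp hr
      have hq' := (Finset.mem_filter.mp hq).2
      refine le_trans ?_ (h (q.2 - q.1) (by omega))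
      apply Finset.card_le_card_of_injOn (fun x => x.1)
      · intro x hx
        simp only [hPdef, Finset.coe_filter, Finset.mem_filter, Finset.mem_product,
          Set.mem_ofPred_eq] at hx ⊢
        obtain ⟨⟨⟨h1, h2⟩, h3⟩, h4⟩ := hx
        refine ⟨h1, ?_⟩
        rw [← h4]
        have : x.1 + (x.2 - x.1) = x.2 := by omega
        rwa [this]
      · intro x hx y hy hxy
        simp only [hPdef, Finset.coe_filter, Finset.mem_filter, Finset.mem_product,
          Set.mem_ofPred_eq] at hx hy hxy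
        have h3 := hx.2
        have h4 := hy.2
        apply Prod.ext hxy
        omega)
    have h2 : (P.image fun q : ℕ × ℕ => q.2 - q.1).card ≤ N := by
      have h3 : (P.image fun q : ℕ × ℕ => q.2 - q.1) ⊆ Finset.Icc 1 N := by
        intro r hr
        obtain ⟨q, hq, rfl⟩ := Finset.mem_image.mp hr
        obtain ⟨hq1, hq2⟩ := Finset.mem_filter.mp hq
        have := hS q.2 (Finset.mem_product.mp hq1).2
        rw [Finset.mem_Icc]
        constructor <;> omega
      have := Finset.card_le_card h3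
      rwa [Nat.card_Icc, Nat.add_sub_cancel] at this
    calc P.card ≤ 2 * (P.image fun q : ℕ × ℕ => q.2 - q.1).card := h1
      _ ≤ 2 * N := Nat.mul_le_mul_left _ h2
  have h3 : S.offDiag.card ≤ 2 * P.card := by
    have h4 : S.offDiag ⊆ P ∪ P.image Prod.swap := by
      intro q hq
      rw [Finset.mem_offDiag] at hq
      obtain ⟨h5, h6, h7⟩ := hq
      rw [Finset.mem_union]
      rcases lt_or_gt_of_ne h7 with h8 | h8
      · exact Or.inl (Finset.mem_filter.mpr ⟨Finset.mem_product.mpr ⟨h5, h6⟩, h8⟩)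
      · right
        rw [Finset.mem_image]
        exact ⟨(q.2, q.1), Finset.mem_filter.mpr ⟨Finset.mem_product.mpr ⟨h6, h5⟩, h8⟩, rfl⟩
    have h5 := (Finset.card_le_card h4).trans (Finset.card_union_le _ _)
    have h6 : (P.image Prod.swap).card ≤ P.card := Finset.card_image_le
    omega
  rw [Finset.offDiag_card] at h3
  have h4 : S.card * S.card ≤ S.card + 4 * N := by omega
  have h5 : (S.card : ℝ) * S.card ≤ S.card + 4 * N := by exact_mod_cast h4
  set s : ℝ := (S.card : ℝ)
  have h6 := Real.sqrt_nonneg (N : ℝ)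
  have h7 := Real.sq_sqrt (Nat.cast_nonneg (α := ℝ) N)
  by_contra h8
  rw [not_le] at h8
  nlinarith

theorem exists_isAlg {x : ℝ} (hx : IsAlgebraic ℤ x) : ∃ D0 H0 : ℕ, IsAlg D0 H0 (x : ℂ) := by
  obtain ⟨P, hP, hroot⟩ := hx
  refine ⟨P.natDegree, ∑ i ∈ P.support, (P.coeff i).natAbs, P, hP, le_rfl, fun i => ?_, ?_⟩
  · by_cases hi : i ∈ P.support
    · have h2 := Finset.single_le_sum (f := fun i => (P.coeff i).natAbs) (fun i _ => Nat.zero_le _) hi
      rw [Int.abs_eq_natAbs]
      exact_mod_cast h2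
    · rw [notMem_support_iff.mp hi, abs_zero]
      positivity
  · have := Polynomial.aeval_algebraMap_apply (R := ℤ) (A := ℝ) ℂ x P
    rw [hroot, map_zero] at this
    simpa using this

theorem tower_eq (a b g d : ℝ) (ha : 0 < a) (hb : 0 < b) (n : ℕ) :
    a ^ (b ^ (g + n * d)) = Real.exp (Real.log a * b ^ g * (b ^ d) ^ n) := by
  rw [Real.rpow_def_of_pos ha, Real.rpow_add hb, mul_comm (n : ℝ) d, Real.rpow_mul hb.le,
    Real.rpow_natCast, mul_assoc]

theorem inj3 {x y w : ℕ} (hxy : x ≠ y) (hxw : x ≠ w) (hyw : y ≠ w) :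
    Function.Injective ![x, y, w] := by
  intro i j hij
  fin_cases i <;> fin_cases j
  · rfl
  · exact absurd hij hxy
  · exact absurd hij hxw
  · exact absurd hij.symm hxy
  · rfl
  · exact absurd hij hyw
  · exact absurd hij.symm hxw
  · exact absurd hij.symm hyw
  · rfl

open Pool.Agent.H12 in
theorem main (b d : ℝ) (hb0 : 0 < b) (hb1 : b ≠ 1) (hb : IsAlgebraic ℤ b) (hd : IsAlgebraic ℤ d)
    (hirr : Irrational d) (D N : ℕ) (B : ℝ) (hB : 1 ≤ B) : ∃ C : ℝ, 0 < C ∧ ∀ H : ℕ, 3 ≤ H →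
      ∀ a g : ℝ, 0 < a → 1 / B ≤ |Real.log a| → |Real.log a| ≤ B → |g| ≤ B →
        ∀ r : ℕ, 1 ≤ r → ((closeSet D N C H a b g d).filter
          fun n => n + r ∈ closeSet D N C H a b g d).card ≤ 2 := by
  classical
  obtain ⟨D1, H1, hb'⟩ := exists_isAlg hb
  obtain ⟨D2, H2, hd'⟩ := exists_isAlg hd
  have hb'' : Pool.Agent.Y928.QN.AlgHt D1 H1 (b : ℂ) := hb'
  have hd'' : Pool.Agent.Y928.QN.AlgHt D2 H2 (d : ℂ) := hd'
  obtain ⟨C7, hC7, hmeas⟩ := tmeas (max D1 D2) (max H1 H2) b d
    (hb''.mono (le_max_left _ _) (le_max_left _ _)) (hd''.mono (le_max_right _ _) (le_max_right _ _))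
    hb0 hb1 hirr N
  set t : ℝ := b ^ d with ht
  have ht0 : 0 < t := Real.rpow_pos_of_pos hb0 _
  set E : ℝ := Real.exp (B * |Real.log b|) with hE
  have hE1 : 1 ≤ E := Real.one_le_exp (by positivity)
  have hB' : 1 ≤ B * E := one_le_mul_of_one_le_of_one_le hB hE1
  obtain ⟨C, hC, hcore⟩ := six_core D N t (B * E) ht0 hB' C7 hC7 hmeas
  refine ⟨C, hC, fun H hH a g ha hla hla' hg r hr => ?_⟩
  by_contra hcon
  rw [not_le, Finset.two_lt_card] at hcon
  obtain ⟨x, hx, y, hy, w, hw, hxy, hxw, hyw⟩ := hcon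
  rw [Finset.mem_filter] at hx hy hw
  have hmem : ∀ n, n ∈ closeSet D N C H a b g d → n ≤ N ∧
      NearT D H (Real.exp (-(C * Real.log H ^ 11))) (Real.exp (Real.log a * b ^ g * t ^ n)) := by
    intro n hn
    unfold closeSet at hn
    rw [Finset.mem_filter, Finset.mem_range] at hn
    refine ⟨by omega, ?_⟩
    have h1 := hn.2
    rw [tower_eq a b g d ha hb0] at h1
    exact h1
  have hgb : |Real.log b * g| ≤ B * |Real.log b| := by
    rw [abs_mul, mul_comm]
    exact mul_le_mul_of_nonneg_right hg (abs_nonneg _)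
  have hbg : b ^ g ≤ E := by
    rw [Real.rpow_def_of_pos hb0]
    exact Real.exp_le_exp.mpr (abs_le.mp hgb).2
  have hbg' : 1 / E ≤ b ^ g := by
    rw [Real.rpow_def_of_pos hb0, hE, one_div, ← Real.exp_neg]
    exact Real.exp_le_exp.mpr (abs_le.mp hgb).1
  have hbg0 : 0 < b ^ g := Real.rpow_pos_of_pos hb0 _
  have hB0 : 0 < B := by linarith
  have hE0 : 0 < E := Real.exp_pos _
  have hl : |Real.log a * b ^ g| = |Real.log a| * b ^ g := by rw [abs_mul, abs_of_pos hbg0]
  refine hcore H hH (Real.log a * b ^ g) ?_ ?_ ![x, y, w] r ?_ hr ?_ ?_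
  · rw [hl]
    calc 1 / (B * E) = 1 / B * (1 / E) := by field_simp
      _ ≤ |Real.log a| * b ^ g := mul_le_mul hla hbg' (by positivity) (abs_nonneg _)
  · rw [hl]
    exact mul_le_mul hla' hbg hbg0.le hB0.le
  · exact inj3 hxy hxw hyw
  · intro p
    fin_cases p
    · exact (hmem _ hx.2).1
    · exact (hmem _ hy.2).1
    · exact (hmem _ hw.2).1
  · intro j p
    have h0 : ∀ p : Fin 3, ![x, y, w] p ∈ closeSet D N C H a b g d ∧
        ![x, y, w] p + r ∈ closeSet D N C H a b g d := by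
      intro p
      fin_cases p
      · exact hx
      · exact hy
      · exact hw
    fin_cases j
    · have := (hmem _ (h0 p).1).2
      simpa using this
    · have := (hmem _ (h0 p).2).2
      simpa using this

theorem z_pow (n : ℕ) : Real.sqrt 2 ^ ((0 : ℝ) + n * Real.sqrt 2) = z ^ n := by
  rw [zero_add, mul_comm, Real.rpow_mul (Real.sqrt_nonneg 2), Real.rpow_natCast]
  rfl

theorem isAlg_sqrt (D H : ℕ) (hD : 2 ≤ D) (hH : 3 ≤ H) : IsAlg D H ((Real.sqrt 2 : ℝ) : ℂ) := by
  have hmonic : (X ^ 2 - C (2 : ℤ)).Monic := monic_X_pow_sub_C _ (by norm_num)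
  refine ⟨X ^ 2 - C (2 : ℤ), hmonic.ne_zero, ?_, ?_, ?_⟩
  · rw [natDegree_X_pow_sub_C]
    exact hD
  · intro i
    have hH' : (3 : ℤ) ≤ H := by exact_mod_cast hH
    rw [coeff_sub, coeff_X_pow, coeff_C]
    split_ifs <;> simp <;> linarith
  · rw [map_sub, map_pow, aeval_X, aeval_C, ← Complex.ofReal_pow, Real.sq_sqrt (by norm_num)]
    simp

/-- **Towers at every scale.** -/
theorem result :
    (∀ b d : ℝ, 0 < b → b ≠ 1 → IsAlgebraic ℤ b → IsAlgebraic ℤ d → Irrational d →
      ∀ (D N : ℕ) (B : ℝ), 1 ≤ B → ∃ C : ℝ, 0 < C ∧ ∀ H : ℕ, 3 ≤ H →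
        ∀ a g : ℝ, 0 < a → 1 / B ≤ |Real.log a| → |Real.log a| ≤ B → |g| ≤ B →
          (∀ r : ℕ, 1 ≤ r → ((closeSet D N C H a b g d).filter
            fun n => n + r ∈ closeSet D N C H a b g d).card ≤ 2) ∧
          ((closeSet D N C H a b g d).card : ℝ) ≤ 2 * Real.sqrt N + 1) ∧
    ∀ D : ℕ, ∃ C : ℝ, 0 < C ∧ ∀ H : ℕ, 3 ≤ H →
      ¬ (Close D C H (Real.sqrt 2 ^ z) ∧ Close D C H (Real.sqrt 2 ^ (z ^ 2)) ∧
        Close D C H (Real.sqrt 2 ^ (z ^ 3))) := by
  classical
  constructor
  · intro b d hb0 hb1 hb hd hirr D N B hB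
    obtain ⟨C, hC, h⟩ := main b d hb0 hb1 hb hd hirr D N B hB
    refine ⟨C, hC, fun H hH a g ha h1 h2 h3 => ⟨h H hH a g ha h1 h2 h3, ?_⟩⟩
    refine count _ N (fun n hn => ?_) (h H hH a g ha h1 h2 h3)
    unfold closeSet at hn
    rw [Finset.mem_filter, Finset.mem_range] at hn
    omega
  · intro D
    have hs0 : 0 < Real.sqrt 2 := by positivity
    have hs1 : Real.sqrt 2 ≠ 1 := fun h => irrational_sqrt_two ⟨1, by rw [h]; norm_num⟩
    have halg : IsAlgebraic ℤ (Real.sqrt 2) := by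
      refine ⟨X ^ 2 - C (2 : ℤ), (monic_X_pow_sub_C _ (by norm_num)).ne_zero, ?_⟩
      rw [map_sub, map_pow, aeval_X, aeval_C, Real.sq_sqrt (by norm_num)]
      simp
    obtain ⟨C, hC, h⟩ := main (Real.sqrt 2) (Real.sqrt 2) hs0 hs1 halg halg irrational_sqrt_two
      (max D 2) 3 3 (by norm_num)
    refine ⟨C, hC, fun H hH hclose => ?_⟩
    have hlog : Real.log (Real.sqrt 2) = Real.log 2 / 2 := Real.log_sqrt (by norm_num)
    have hlg := Real.log_two_gt_d9
    have hll := Real.log_two_lt_d9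
    have h1 := h H hH (Real.sqrt 2) 0 hs0
      (by rw [hlog, abs_of_pos (by linarith)]; linarith)
      (by rw [hlog, abs_of_pos (by linarith)]; linarith) (by simp) 1 le_rfl
    have hmono : ∀ x, Close D C H x → Close (max D 2) C H x := by
      rintro x ⟨α, ⟨P, hP, hdeg, hco, hroot⟩, hx⟩
      exact ⟨α, ⟨P, hP, hdeg.trans (le_max_left _ _), hco, hroot⟩, hx⟩
    have hS : ∀ n ≤ 3, n ∈ closeSet (max D 2) 3 C H (Real.sqrt 2) (Real.sqrt 2) 0 (Real.sqrt 2) := by
      intro n hn
      unfold closeSet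
      rw [Finset.mem_filter, Finset.mem_range, z_pow]
      refine ⟨by omega, ?_⟩
      obtain ⟨c1, c2, c3⟩ := hclose
      interval_cases n
      · rw [pow_zero, Real.rpow_one]
        refine ⟨_, isAlg_sqrt _ H (le_max_right _ _) hH, ?_⟩
        rw [sub_self, norm_zero]
        exact (Real.exp_pos _).le
      · rw [pow_one]
        exact hmono _ c1
      · exact hmono _ c2
      · exact hmono _ c3
    have h2 : 2 < ((closeSet (max D 2) 3 C H (Real.sqrt 2) (Real.sqrt 2) 0 (Real.sqrt 2)).filter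
        fun n => n + 1 ∈ closeSet (max D 2) 3 C H (Real.sqrt 2) (Real.sqrt 2) 0 (Real.sqrt 2)).card := by
      rw [Finset.two_lt_card]
      exact ⟨0, Finset.mem_filter.mpr ⟨hS 0 (by omega), hS 1 (by omega)⟩, 1,
        Finset.mem_filter.mpr ⟨hS 1 (by omega), hS 2 (by omega)⟩, 2,
        Finset.mem_filter.mpr ⟨hS 2 (by omega), hS 3 (by omega)⟩, by norm_num, by norm_num, by norm_num⟩
    omega

end Pool.Agent.Results.MP_93d8d2_nt.TowersAtEveryScale
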